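import Pool.Agent.Helper403_Split.Defs

/-!
# A sequence criterion for `Split(Ω, Λ)`
-/

set_option autoImplicit false

open Set Filter Topology
open scoped Cardinal

namespace Pool.Agent.Helper403.Split

/-- An `ω`-cover has a countable subfamily which is still an `ω`-cover. -/
theorem exists_countable_omega {X : Set ℝ} {𝒰 : Set (Set X)} (h : IsOmega X 𝒰) :
    ∃ 𝒰₀ ⊆ 𝒰, 𝒰₀.Countable ∧ ∀ F : Set X, F.Finite → ∃ U ∈ 𝒰₀, F ⊆ U := by
  classical
  obtain ⟨⟨hopen, -, -⟩, hom⟩ := h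
  set 𝓑 := TopologicalSpace.countableBasis X with h𝓑
  have h𝓑c : 𝓑.Countable := TopologicalSpace.countable_countableBasis X
  have h𝓑b : TopologicalSpace.IsTopologicalBasis 𝓑 := TopologicalSpace.isBasis_countableBasis X
  set T : Set (Set (Set X)) := {t | t ⊆ 𝓑 ∧ t.Finite ∧ ∃ U ∈ 𝒰, ⋃₀ t ⊆ U} with hT
  have hTc : T.Countable := by
    refine (Set.countable_ofPred_finite_subset h𝓑c).mono ?_
    rintro t ⟨h1, h2, -⟩
    exact ⟨h2, h1⟩
  choose! g hgU hgt using fun (t : Set (Set X)) (ht : t ∈ T) => ht.2.2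
  refine ⟨g '' T, ?_, hTc.image g, ?_⟩
  · rintro _ ⟨t, ht, rfl⟩
    exact hgU t ht
  · intro F hF
    obtain ⟨U, hU, hFU⟩ := hom F hF
    have h1 : ∀ x ∈ F, ∃ b ∈ 𝓑, x ∈ b ∧ b ⊆ U := fun x hx =>
      h𝓑b.exists_subset_of_mem_open (hFU hx) (hopen U hU)
    choose! c hc𝓑 hcx hcU using h1
    have htT : c '' F ∈ T := by
      refine ⟨?_, hF.image c, U, hU, ?_⟩
      · rintro _ ⟨x, hx, rfl⟩
        exact hc𝓑 x hx
      · rintro y ⟨_, ⟨x, hx, rfl⟩, hy⟩
        exact hcU x hx hy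
    refine ⟨g (c '' F), mem_image_of_mem g htT, ?_⟩
    intro x hx
    exact hgt _ htT ⟨c x, mem_image_of_mem c hx, hcx x hx⟩

/-- If every sequence of open sets that contains each finite set infinitely often can be split,
then `Split(Ω, Λ)` holds. -/
theorem split_of_seq {X : Set ℝ}
    (H : ∀ O : ℕ → Set X, (∀ n, IsOpen (O n)) → (∀ F : Set X, F.Finite → {n | F ⊆ O n}.Infinite) →
      ∃ T : Set ℕ, ∀ x : X, {n | n ∈ T ∧ x ∈ O n}.Infinite ∧ {n | n ∉ T ∧ x ∈ O n}.Infinite) :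
    SplitOmegaLambda X := by
  intro 𝒰 h𝒰
  obtain ⟨𝒰₀, hsub, hcount, hom⟩ := exists_countable_omega h𝒰
  obtain ⟨⟨hopen, hcov, huniv⟩, -⟩ := h𝒰
  -- `𝒰₀` minus finitely many members is still an `ω`-cover
  have key : ∀ F : Set X, F.Finite → ∀ K : Set (Set X), K.Finite →
      ∃ U ∈ 𝒰₀, U ∉ K ∧ F ⊆ U := by
    intro F hF K hK
    have h1 : ∀ U ∈ K ∩ 𝒰₀, ∃ x : X, x ∉ U := by
      intro U hU
      by_contra hcon
      push Not at hcon
      exact huniv (hsub ((eq_univ_of_forall hcon) ▸ hU.2))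
    have hneX : Nonempty X := by
      obtain ⟨U, hU, -⟩ := hom ∅ finite_empty
      by_contra hcon
      have : U = univ := eq_univ_of_forall fun x => (hcon ⟨x⟩).elim
      exact huniv (hsub (this ▸ hU))
    choose! c hc using h1
    obtain ⟨U, hU, hFU⟩ := hom (F ∪ c '' (K ∩ 𝒰₀)) (hF.union ((hK.inter_of_left _).image c))
    refine ⟨U, hU, ?_, subset_union_left.trans hFU⟩
    intro hUK
    exact hc U ⟨hUK, hU⟩ (hFU (Or.inr (mem_image_of_mem c ⟨hUK, hU⟩)))
  have hinf : 𝒰₀.Infinite := by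
    intro hfin
    obtain ⟨U, hU, hU', -⟩ := key ∅ finite_empty 𝒰₀ hfin
    exact hU' hU
  have : Infinite 𝒰₀ := hinf.to_subtype
  have : Countable 𝒰₀ := hcount.to_subtype
  obtain ⟨e⟩ : Nonempty (ℕ ≃ 𝒰₀) := by
    have := Encodable.ofCountable 𝒰₀
    have := Denumerable.ofEncodableOfInfinite 𝒰₀
    exact ⟨(Denumerable.eqv 𝒰₀).symm⟩
  obtain ⟨S, hS⟩ := H (fun n => (e n : Set X)) (fun n => hopen _ (hsub (e n).2)) (by
    intro F hF hfin
    obtain ⟨U, hU, hUK, hFU⟩ := key F hF ((fun n => (e n : Set X)) '' {n | F ⊆ (e n : Set X)})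
      (hfin.image _)
    exact hUK ⟨e.symm ⟨U, hU⟩, by simpa using hFU, by simp⟩)
  have hinj : Function.Injective (fun n => (e n : Set X)) :=
    Subtype.val_injective.comp e.injective
  have large : ∀ T : Set ℕ, (∀ x : X, {n | n ∈ T ∧ x ∈ (e n : Set X)}.Infinite) →
      IsLarge X ((fun n => (e n : Set X)) '' T) := by
    intro T hT
    refine ⟨⟨?_, ?_, ?_⟩, ?_⟩
    · rintro _ ⟨n, -, rfl⟩
      exact hopen _ (hsub (e n).2)
    · refine eq_univ_of_forall fun x => ?_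
      obtain ⟨n, hnT, hn⟩ := (hT x).nonempty
      exact ⟨_, ⟨n, hnT, rfl⟩, hn⟩
    · rintro ⟨n, -, hn⟩
      exact huniv (hsub (hn ▸ (e n).2))
    · intro x
      refine ((hT x).image hinj.injOn).mono ?_
      rintro _ ⟨n, ⟨hn1, hn2⟩, rfl⟩
      exact ⟨⟨n, hn1, rfl⟩, hn2⟩
  refine ⟨(fun n => (e n : Set X)) '' S, 𝒰 \ (fun n => (e n : Set X)) '' S, ?_, ?_, ?_, ?_⟩
  · refine union_sdiff_cancel ?_
    rintro _ ⟨n, -, rfl⟩
    exact hsub (e n).2
  · exact disjoint_sdiff_right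
  · exact ⟨_, Subset.rfl, large S fun x => (hS x).1⟩
  · refine ⟨(fun n => (e n : Set X)) '' Sᶜ, ?_, large Sᶜ fun x => (hS x).2⟩
    rintro _ ⟨n, hn, rfl⟩
    refine ⟨hsub (e n).2, ?_⟩
    rintro ⟨m, hm, hmn⟩
    have : e m = e n := Subtype.ext hmn
    exact hn (e.injective this ▸ hm)

/-- If `Split(Ω, Λ)` holds, then every sequence of open sets that contains each finite set
infinitely often can be split. -/
theorem seq_of_split {X : Set ℝ} (h : SplitOmegaLambda X)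
    (O : ℕ → Set X) (hO : ∀ n, IsOpen (O n)) (hF : ∀ F : Set X, F.Finite → {n | F ⊆ O n}.Infinite) :
    ∃ T : Set ℕ, ∀ x : X, {n | n ∈ T ∧ x ∈ O n}.Infinite ∧ {n | n ∉ T ∧ x ∈ O n}.Infinite := by
  classical
  by_cases hJ : {j | O j = univ}.Infinite
  · -- split the indices of the full set
    have : Infinite {j | O j = univ} := hJ.to_subtype
    obtain ⟨f, hf1, hf2⟩ : ∃ f : ℕ → ℕ, Function.Injective f ∧ ∀ n, O (f n) = univ := by
      refine ⟨fun n => (Infinite.natEmbedding {j | O j = univ} n : ℕ), ?_, ?_⟩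
      · exact Subtype.val_injective.comp (Infinite.natEmbedding _).injective
      · intro n
        exact (Infinite.natEmbedding {j | O j = univ} n).2
    refine ⟨range fun n => f (2 * n), fun x => ⟨?_, ?_⟩⟩
    · have h1 : (range fun n => f (2 * n)).Infinite :=
        infinite_range_of_injective (fun a b hab => by have := hf1 hab; omega)
      refine h1.mono ?_
      rintro _ ⟨n, rfl⟩
      exact ⟨⟨n, rfl⟩, by rw [hf2]; trivial⟩
    · have h1 : (range fun n => f (2 * n + 1)).Infinite :=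
        infinite_range_of_injective (fun a b hab => by have := hf1 hab; omega)
      refine h1.mono ?_
      rintro _ ⟨n, rfl⟩
      refine ⟨?_, by rw [hf2]; trivial⟩
      rintro ⟨m, hm⟩
      have := hf1 hm
      omega
  · rw [Set.not_infinite] at hJ
    set 𝒰 : Set (Set X) := O '' {j | O j ≠ univ} with h𝒰
    have hfin : ∀ F : Set X, F.Finite → ∃ V ∈ 𝒰, F ⊆ V := by
      intro F hFf
      obtain ⟨n, hn1, hn2⟩ := ((hF F hFf).sdiff hJ).nonempty
      exact ⟨O n, ⟨n, hn2, rfl⟩, hn1⟩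
    have hom : IsOmega X 𝒰 := by
      refine ⟨⟨?_, ?_, ?_⟩, hfin⟩
      · rintro _ ⟨n, -, rfl⟩
        exact hO n
      · refine eq_univ_of_forall fun x => ?_
        obtain ⟨V, hV, hxV⟩ := hfin {x} (finite_singleton x)
        exact ⟨V, hV, hxV rfl⟩
      · rintro ⟨n, hn1, hn2⟩
        exact hn1 hn2
    obtain ⟨𝒱, 𝒲, hunion, hdisj, ⟨𝒱', hV', hVl⟩, ⟨𝒲', hW', hWl⟩⟩ := h _ hom
    refine ⟨{n | O n ∈ 𝒱}, fun x => ⟨?_, ?_⟩⟩
    · intro hfin'
      refine hVl.2 x ((hfin'.image O).subset ?_)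
      rintro V ⟨hV, hxV⟩
      have hV2 : V ∈ 𝒰 := hunion ▸ Or.inl (hV' hV)
      obtain ⟨n, -, rfl⟩ := hV2
      exact ⟨n, ⟨hV' hV, hxV⟩, rfl⟩
    · intro hfin'
      refine hWl.2 x ((hfin'.image O).subset ?_)
      rintro V ⟨hV, hxV⟩
      have hV2 : V ∈ 𝒰 := hunion ▸ Or.inr (hW' hV)
      obtain ⟨n, -, rfl⟩ := hV2
      exact ⟨n, ⟨fun h' => (disjoint_left.1 hdisj h') (hW' hV), hxV⟩, rfl⟩

theorem infinite_of_mem {p : Ultrafilter ℕ} (hp : (p : Filter ℕ) ≤ cofinite) {A : Set ℕ}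
    (hA : A ∈ p) : A.Infinite := by
  intro hfin
  have h1 : Aᶜ ∈ p := hp hfin.compl_mem_cofinite
  have h2 := Ultrafilter.compl_notMem_iff.2 hA
  exact h2 h1

/-- There is a set of reals which fails `Split(Ω, Λ)`. -/
theorem exists_not_split : ∃ X : Set ℝ, ¬ SplitOmegaLambda X := by
  classical
  obtain ⟨p, hp⟩ : ∃ p : Ultrafilter ℕ, (p : Filter ℕ) ≤ cofinite :=
    ⟨hyperfilter ℕ, hyperfilter_le_cofinite⟩
  obtain ⟨f, -, hfc, hfi⟩ := (isClosed_univ (X := ℝ)).exists_nat_bool_injection_of_not_countable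
    (by
      intro h
      have := Cardinal.not_countable_real
      exact this h)
  have hemb : IsClosedEmbedding f := hfc.isClosedEmbedding hfi
  -- the code of a set of natural numbers
  set code : Set ℕ → ℝ := fun b => f fun n => decide (n ∈ b) with hcode
  have hO : ∀ n : ℕ, ∃ O : Set ℝ, IsOpen O ∧ f ⁻¹' O = {g | g n = true} := by
    intro n
    have h1 : IsOpen {g : ℕ → Bool | g n = true} := by
      have h0 : Continuous fun g : ℕ → Bool => g n := continuous_apply n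
      exact (isOpen_discrete ({true} : Set Bool)).preimage h0
    exact hemb.isInducing.isOpen_iff.1 h1
  choose O hOopen hOf using hO
  have hmem : ∀ n b, code b ∈ O n ↔ n ∈ b := by
    intro n b
    have : (fun m => decide (m ∈ b)) ∈ f ⁻¹' O n ↔ n ∈ b := by
      rw [hOf]; simp
    exact this
  refine ⟨code '' {b | b ∈ p}, fun hsplit => ?_⟩
  have hpt : ∀ x : (code '' {b | b ∈ p} : Set ℝ), ∃ b ∈ p, (x : ℝ) = code b := by
    rintro ⟨_, b, hb, rfl⟩
    exact ⟨b, hb, rfl⟩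
  obtain ⟨T, hT⟩ := seq_of_split hsplit (fun n => Subtype.val ⁻¹' O n)
    (fun n => (hOopen n).preimage continuous_subtype_val) (by
      intro F hF
      choose c hcB hc using hpt
      have h1 : (⋂ x ∈ F, c x) ∈ p := (Filter.biInter_mem hF).2 fun x _ => hcB x
      refine (infinite_of_mem hp h1).mono fun n hn x hx => ?_
      show (x : ℝ) ∈ O n
      rw [hc x, hmem]
      exact mem_iInter₂.1 hn x hx)
  rcases p.mem_or_compl_mem T with h | h
  · obtain ⟨n, hn1, hn2⟩ := (hT ⟨code T, T, h, rfl⟩).2.nonempty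
    have h3 : code T ∈ O n := hn2
    rw [hmem] at h3
    exact hn1 h3
  · obtain ⟨n, hn1, hn2⟩ := (hT ⟨code Tᶜ, Tᶜ, h, rfl⟩).1.nonempty
    have h3 : code Tᶜ ∈ O n := hn2
    rw [hmem] at h3
    exact h3 hn1

/-- A singleton satisfies `Split(Ω, Λ)`. -/
theorem split_singleton (x : ℝ) : SplitOmegaLambda {x} := by
  intro 𝒰 h𝒰
  exfalso
  obtain ⟨⟨-, hcov, huniv⟩, -⟩ := h𝒰
  have h1 : (⟨x, rfl⟩ : ({x} : Set ℝ)) ∈ ⋃₀ 𝒰 := by rw [hcov]; trivial
  obtain ⟨U, hU, hxU⟩ := h1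
  have h2 : U = univ := eq_univ_of_forall fun y => by
    have : y = ⟨x, rfl⟩ := Subtype.ext y.2
    rw [this]; exact hxU
  exact huniv (h2 ▸ hU)

/-- There is a family of members of `𝒮` whose union is not in `𝒮`. -/
theorem exists_family : ∃ F : Set (Set ℝ), (∀ X ∈ F, SplitOmegaLambda X) ∧
    ¬ SplitOmegaLambda (⋃₀ F) := by
  obtain ⟨X, hX⟩ := exists_not_split
  refine ⟨(fun x => {x}) '' X, ?_, ?_⟩
  · rintro _ ⟨x, -, rfl⟩
    exact split_singleton x
  · have : ⋃₀ ((fun x : ℝ => ({x} : Set ℝ)) '' X) = X := by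
      ext y; simp
    rw [this]
    exact hX

end Pool.Agent.Helper403.Split
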