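import Mathlib

/-!
# `Split(Ω, Λ)` and a forcing-axiom cardinal: definitions

* sets of reals, open covers, large covers, `ω`-covers, `Split(Ω, Λ)` and `add(𝒮)`;
* posets, dense sets, filters, properness (club formulation), and the cardinal `mProper`;
* the poset `ℚ_U` attached to an ultrafilter `U` on `ℕ`, and the cardinal `mSplit`.
-/

set_option autoImplicit false

open Set Filter Topology
open scoped Cardinal

namespace Pool.Agent.Helper403.Split

/-! ### Open covers and `Split(Ω, Λ)` -/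

/-- `𝒰` is an open cover of the set of reals `X` (subspace topology): its members are open in `X`,
its union is `X`, and `X` itself is not a member. -/
def IsOpenCover (X : Set ℝ) (𝒰 : Set (Set X)) : Prop :=
  (∀ U ∈ 𝒰, IsOpen U) ∧ ⋃₀ 𝒰 = univ ∧ univ ∉ 𝒰

/-- `𝒰 ∈ Λ(X)`: an open cover such that every point of `X` is in infinitely many members. -/
def IsLarge (X : Set ℝ) (𝒰 : Set (Set X)) : Prop :=
  IsOpenCover X 𝒰 ∧ ∀ x : X, {U ∈ 𝒰 | x ∈ U}.Infinite

/-- `𝒰 ∈ Ω(X)`: an open cover such that every finite subset of `X` is contained in a member. -/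
def IsOmega (X : Set ℝ) (𝒰 : Set (Set X)) : Prop :=
  IsOpenCover X 𝒰 ∧ ∀ F : Set X, F.Finite → ∃ U ∈ 𝒰, F ⊆ U

/-- `X` satisfies `Split(Ω, Λ)`. -/
def SplitOmegaLambda (X : Set ℝ) : Prop :=
  ∀ 𝒰 : Set (Set X), IsOmega X 𝒰 → ∃ 𝒱 𝒲 : Set (Set X), 𝒱 ∪ 𝒲 = 𝒰 ∧ Disjoint 𝒱 𝒲 ∧
    (∃ 𝒱' ⊆ 𝒱, IsLarge X 𝒱') ∧ (∃ 𝒲' ⊆ 𝒲, IsLarge X 𝒲')

/-- `add(𝒮)`: the least cardinality of a family of members of `𝒮` whose union is not in `𝒮`. -/
noncomputable def addSplit : Cardinal.{0} :=
  sInf {κ | ∃ F : Set (Set ℝ), (∀ X ∈ F, SplitOmegaLambda X) ∧ ¬ SplitOmegaLambda (⋃₀ F) ∧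
    #F = κ}

/-! ### Forcing notions -/

/-- `D` is dense in the forcing notion `P` (smaller elements are stronger conditions). -/
def IsDenseSet {P : Type} [Preorder P] (D : Set P) : Prop :=
  ∀ p : P, ∃ d ∈ D, d ≤ p

/-- `p` and `q` are compatible. -/
def Compat {P : Type} [Preorder P] (p q : P) : Prop :=
  ∃ r, r ≤ p ∧ r ≤ q

/-- `G` is a filter of the forcing notion `P`. -/
def IsFilterSet {P : Type} [Preorder P] (G : Set P) : Prop :=
  G.Nonempty ∧ (∀ p ∈ G, ∀ q, p ≤ q → q ∈ G) ∧ ∀ p ∈ G, ∀ q ∈ G, ∃ r ∈ G, r ≤ p ∧ r ≤ q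

/-- For a set `X` of conditions and sets of conditions, `q` is an `X`-generic condition: for each
dense set `D ∈ X`, the set `D ∩ X` is predense below `q`. -/
def IsGenericFor {P : Type} [Preorder P] (X : Set (P ⊕ Set P)) (q : P) : Prop :=
  ∀ D : Set P, IsDenseSet D → Sum.inr D ∈ X → ∀ r ≤ q, ∃ d ∈ D, Sum.inl d ∈ X ∧ Compat r d

/-- The forcing notion `P` is proper: for a club of countable sets `X` of conditions and sets of
conditions (all the countable sets closed under one finitary function `F`), each condition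
`p ∈ X` has an extension that is `X`-generic. -/
def IsProperForcing (P : Type) [Preorder P] : Prop :=
  ∃ F : List (P ⊕ Set P) → P ⊕ Set P, ∀ X : Set (P ⊕ Set P), X.Countable →
    (∀ l : List (P ⊕ Set P), (∀ a ∈ l, a ∈ X) → F l ∈ X) →
    ∀ p : P, Sum.inl p ∈ X → ∃ q ≤ p, IsGenericFor X q

/-- The number `𝔪` of the proper forcing axiom for posets of size at most the continuum: the least
cardinality of a family of dense subsets of a nonempty proper poset of cardinality at most the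
continuum such that no filter meets every member of the family. -/
noncomputable def mProper : Cardinal.{0} :=
  sInf {κ | ∃ (P : Type) (_ : Preorder P) (𝒟 : Set (Set P)), Nonempty P ∧ #P ≤ 𝔠 ∧
    IsProperForcing P ∧ (∀ D ∈ 𝒟, IsDenseSet D) ∧
    (¬ ∃ G : Set P, IsFilterSet G ∧ ∀ D ∈ 𝒟, (G ∩ D).Nonempty) ∧ #𝒟 = κ}

/-! ### The poset `ℚ_U` -/

/-- The conditions of `ℚ_U`: the maps `φ : ℕ → ℕ` none of whose fibers is in the ultrafilter
`U`. -/
def QU (U : Ultrafilter ℕ) : Type := {φ : ℕ → ℕ // ∀ n, {k | φ k = n} ∉ U}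

/-- The order of `ℚ_U`: `ψ ≤ φ` if `ψ` is constant on each fiber of `φ` and agrees with `φ` on the
fibers of `0` and `1`. -/
instance (U : Ultrafilter ℕ) : Preorder (QU U) where
  le ψ φ := (∀ k l, φ.1 k = φ.1 l → ψ.1 k = ψ.1 l) ∧ ∀ k, φ.1 k < 2 → ψ.1 k = φ.1 k
  le_refl φ := ⟨fun _ _ h => h, fun _ _ => rfl⟩
  le_trans χ ψ φ h1 h2 := ⟨fun k l h => h1.1 k l (h2.1 k l h), fun k hk => by
    have h3 := h2.2 k hk
    rw [h1.2 k (by omega), h3]⟩

/-- The least cardinality of a family of dense subsets of one of the posets `ℚ_U` (`U` a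
nonprincipal ultrafilter on `ℕ`) such that no filter meets every member of the family. -/
noncomputable def mSplit : Cardinal.{0} :=
  sInf {κ | ∃ (U : Ultrafilter ℕ) (𝒟 : Set (Set (QU U))), (U : Filter ℕ) ≤ cofinite ∧
    (∀ D ∈ 𝒟, IsDenseSet D) ∧
    (¬ ∃ G : Set (QU U), IsFilterSet G ∧ ∀ D ∈ 𝒟, (G ∩ D).Nonempty) ∧ #𝒟 = κ}

end Pool.Agent.Helper403.Split
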