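import Pool.Agent.Helper403_Split.Crit

/-!
# From a bad union to an ultrafilter `U` and dense subsets of `ℚ_U`
-/

set_option autoImplicit false

open Set Filter Topology
open scoped Cardinal

namespace Pool.Agent.Helper403.Split

variable {U : Ultrafilter ℕ}

theorem union_notMem {A B : Set ℕ} (hA : A ∉ U) (hB : B ∉ U) : A ∪ B ∉ U := by
  rw [Ultrafilter.union_mem_iff]
  tauto

theorem subset_notMem {A B : Set ℕ} (hB : B ∉ U) (h : A ⊆ B) : A ∉ U :=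
  fun hA => hB (Filter.mem_of_superset hA h)

theorem finite_preimage_notMem (φ : QU U) {J : Set ℕ} (hJ : J.Finite) : {k | φ.1 k ∈ J} ∉ U := by
  have h1 : {k | φ.1 k ∈ J} = ⋃ j ∈ J, {k | φ.1 k = j} := by
    ext k; simp
  rw [h1]
  intro h
  obtain ⟨j, -, hj2⟩ := (Ultrafilter.finite_biUnion_mem_iff hJ).1 h
  exact φ.2 j hj2

/-- Collapse a set of classes to the value `c`. -/
noncomputable def collapse (φ : QU U) (T : Set ℕ) (c : ℕ) (hT : {k | φ.1 k ∈ T} ∉ U) : QU U := by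
  classical
  exact ⟨fun k => if φ.1 k ∈ T then c else φ.1 k, fun n => by
    refine subset_notMem (union_notMem hT (φ.2 n)) ?_
    intro k hk
    by_cases h : φ.1 k ∈ T
    · exact Or.inl h
    · right
      simpa [h] using hk⟩

theorem collapse_apply_mem (φ : QU U) (T : Set ℕ) (c : ℕ) (hT : {k | φ.1 k ∈ T} ∉ U) {k : ℕ}
    (h : φ.1 k ∈ T) : (collapse φ T c hT).1 k = c := by
  simp [collapse, h]

theorem collapse_apply_notMem (φ : QU U) (T : Set ℕ) (c : ℕ) (hT : {k | φ.1 k ∈ T} ∉ U) {k : ℕ}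
    (h : φ.1 k ∉ T) : (collapse φ T c hT).1 k = φ.1 k := by
  simp [collapse, h]

theorem collapse_le (φ : QU U) (T : Set ℕ) (c : ℕ) (hT : {k | φ.1 k ∈ T} ∉ U)
    (h0 : ∀ t ∈ T, 2 ≤ t) : collapse φ T c hT ≤ φ := by
  refine ⟨fun k l hkl => ?_, fun k hk => ?_⟩
  · by_cases h : φ.1 k ∈ T
    · rw [collapse_apply_mem φ T c hT h, collapse_apply_mem φ T c hT (hkl ▸ h)]
    · rw [collapse_apply_notMem φ T c hT h, collapse_apply_notMem φ T c hT (hkl ▸ h), hkl]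
  · have h : φ.1 k ∉ T := fun h => by
      have := h0 _ h
      omega
    exact collapse_apply_notMem φ T c hT h

/-- One value can be made infinite on all the sets attached to the points of a set in `𝒮`. -/
theorem half_dense {X : Set ℝ} (O : ℕ → Set X) (hO : ∀ n, IsOpen (O n))
    (hU : ∀ x : X, {n | x ∈ O n} ∈ U) {Y : Set ℝ} (hY : SplitOmegaLambda Y) (hYX : Y ⊆ X)
    (φ : QU U) (c : ℕ) :
    ∃ ψ ≤ φ, ∀ x : X, x.1 ∈ Y → {k | x ∈ O k ∧ ψ.1 k = c}.Infinite := by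
  classical
  set O' : ℕ → Set Y := fun j => {y | ∃ k, φ.1 k = j ∧ (⟨y.1, hYX y.2⟩ : X) ∈ O k} with hO'
  have hopen : ∀ j, IsOpen (O' j) := by
    intro j
    have h1 : O' j = (fun y : Y => (⟨y.1, hYX y.2⟩ : X)) ⁻¹' ⋃ k ∈ {k | φ.1 k = j}, O k := by
      ext y
      simp [hO']
    rw [h1]
    refine (isOpen_biUnion fun k _ => hO k).preimage ?_
    fun_prop
  have hF : ∀ F : Set Y, F.Finite → {n | F ⊆ O' n}.Infinite := by
    intro F hF hfin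
    have h1 : (⋂ y ∈ F, {n | (⟨y.1, hYX y.2⟩ : X) ∈ O n}) ∈ U :=
      (Filter.biInter_mem hF).2 fun y _ => hU _
    refine finite_preimage_notMem φ hfin (Filter.mem_of_superset h1 ?_)
    intro k hk y hy
    exact ⟨k, rfl, mem_iInter₂.1 hk y hy⟩
  obtain ⟨T₀, hT₀⟩ := seq_of_split hY O' hopen hF
  -- choose a half whose preimage is small
  obtain ⟨T, hTU, hT⟩ : ∃ T : Set ℕ, {k | φ.1 k ∈ T} ∉ U ∧
      ∀ y : Y, {n | n ∈ T ∧ y ∈ O' n}.Infinite := by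
    by_cases h : {k | φ.1 k ∈ T₀} ∈ U
    · refine ⟨T₀ᶜ, ?_, fun y => (hT₀ y).2⟩
      have h2 := Ultrafilter.compl_notMem_iff.2 h
      exact h2
    · exact ⟨T₀, h, fun y => (hT₀ y).1⟩
  have hT' : {k | φ.1 k ∈ {t | t ∈ T ∧ 2 ≤ t}} ∉ U :=
    subset_notMem hTU fun k hk => hk.1
  refine ⟨collapse φ _ c hT', collapse_le φ _ c hT' fun t ht => ht.2, ?_⟩
  intro x hx hfin
  refine ((hT ⟨x.1, hx⟩).sdiff (finite_Iio 2)) ((hfin.image φ.1).subset ?_)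
  rintro j ⟨⟨hjT, k, hkj, hk⟩, hj2⟩
  have hj2' : 2 ≤ j := not_lt.1 hj2
  refine ⟨k, ⟨hk, ?_⟩, hkj⟩
  exact collapse_apply_mem φ _ c hT' (by rw [hkj]; exact ⟨hjT, hj2'⟩)

/-- The dense set attached to `Y`. -/
def DY {X : Set ℝ} (O : ℕ → Set X) (U : Ultrafilter ℕ) (Y : Set ℝ) : Set (QU U) :=
  {φ | ∀ x : X, x.1 ∈ Y → {k | x ∈ O k ∧ φ.1 k = 0}.Infinite ∧ {k | x ∈ O k ∧ φ.1 k = 1}.Infinite}

theorem dense_DY {X : Set ℝ} (O : ℕ → Set X) (hO : ∀ n, IsOpen (O n))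
    (hU : ∀ x : X, {n | x ∈ O n} ∈ U) {Y : Set ℝ} (hY : SplitOmegaLambda Y) (hYX : Y ⊆ X) :
    IsDenseSet (DY O U Y) := by
  intro φ
  obtain ⟨ψ, hψ, h1⟩ := half_dense O hO hU hY hYX φ 0
  obtain ⟨χ, hχ, h2⟩ := half_dense O hO hU hY hYX ψ 1
  refine ⟨χ, fun x hx => ⟨?_, h2 x hx⟩, hχ.trans hψ⟩
  refine (h1 x hx).mono ?_
  rintro k ⟨hk1, hk2⟩
  refine ⟨hk1, ?_⟩
  rw [hχ.2 k (by omega), hk2]

/-- Every failure of additivity yields an ultrafilter `U` and at most as many dense subsets of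
`ℚ_U` not met by one filter. -/
theorem exists_dense_family (F : Set (Set ℝ)) (hF : ∀ X ∈ F, SplitOmegaLambda X)
    (hFn : ¬ SplitOmegaLambda (⋃₀ F)) :
    ∃ (U : Ultrafilter ℕ) (𝒟 : Set (Set (QU U))), (U : Filter ℕ) ≤ cofinite ∧
      (∀ D ∈ 𝒟, IsDenseSet D) ∧
      (¬ ∃ G : Set (QU U), IsFilterSet G ∧ ∀ D ∈ 𝒟, (G ∩ D).Nonempty) ∧ #𝒟 ≤ #F := by
  classical
  by_contra hcon
  refine hFn (split_of_seq ?_)
  intro O hO hω
  by_contra hbad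
  -- the ultrafilter
  set G : Set (Set ℕ) := (range fun x : (⋃₀ F : Set ℝ) => {n | x ∈ O n}) ∪ {s | sᶜ.Finite} with hG
  have hne : (Filter.generate G).NeBot := by
    rw [Filter.generate_neBot_iff]
    intro t htG htfin
    have h1 : ∃ E : Set (⋃₀ F : Set ℝ), E.Finite ∧
        t ∩ range (fun x : (⋃₀ F : Set ℝ) => {n | x ∈ O n}) ⊆ (fun x => {n | x ∈ O n}) '' E := by
      obtain ⟨E, hEs, hEf, hEi⟩ := Set.exists_subset_image_finite_and.1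
        ⟨t ∩ range (fun x : (⋃₀ F : Set ℝ) => {n | x ∈ O n}),
          by rw [image_univ]; exact inter_subset_right, htfin.inter_of_left _, rfl⟩
      exact ⟨E, hEf, hEi.le⟩
    obtain ⟨E, hE, hEt⟩ := h1
    have h2 : (⋃ s ∈ t ∩ {s : Set ℕ | sᶜ.Finite}, sᶜ).Finite :=
      (htfin.inter_of_left _).biUnion fun s hs => hs.2
    obtain ⟨n, hn1, hn2⟩ := ((hω E hE).sdiff h2).nonempty
    refine ⟨n, ?_⟩
    rw [mem_sInter]
    intro s hs
    rcases htG hs with h | h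
    · obtain ⟨x, hx, rfl⟩ := hEt ⟨hs, h⟩
      exact hn1 hx
    · by_contra hns
      exact hn2 (mem_biUnion (show s ∈ t ∩ {s : Set ℕ | sᶜ.Finite} from ⟨hs, h⟩) hns)
  obtain ⟨p, hp⟩ := Ultrafilter.exists_le (Filter.generate G)
  have hGp : ∀ s ∈ G, s ∈ p := fun s hs => hp (Filter.mem_generate_of_mem hs)
  have hpc : (p : Filter ℕ) ≤ cofinite := by
    intro s hs
    exact hGp s (Or.inr (by simpa using hs))
  have hU : ∀ x : (⋃₀ F : Set ℝ), {n | x ∈ O n} ∈ p := fun x => hGp _ (Or.inl ⟨x, rfl⟩)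
  apply hcon
  refine ⟨p, (fun Y => DY O p Y) '' F, hpc, ?_, ?_, Cardinal.mk_image_le⟩
  · rintro _ ⟨Y, hY, rfl⟩
    exact dense_DY O hO hU (hF Y hY) (subset_sUnion_of_mem hY)
  rintro ⟨G', ⟨-, -, hdir⟩, hmeet⟩
  apply hbad
  refine ⟨{k | ∃ φ ∈ G', φ.1 k = 1}, fun x => ?_⟩
  obtain ⟨Y, hY, hxY⟩ := x.2
  obtain ⟨φ, hφG, hφD⟩ := hmeet _ ⟨Y, hY, rfl⟩
  obtain ⟨h0, h1⟩ := hφD x hxY
  refine ⟨h1.mono ?_, h0.mono ?_⟩
  · rintro k ⟨hk1, hk2⟩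
    exact ⟨⟨φ, hφG, hk2⟩, hk1⟩
  · rintro k ⟨hk1, hk2⟩
    refine ⟨?_, hk1⟩
    rintro ⟨φ', hφ'G, hφ'k⟩
    obtain ⟨r, -, hr1, hr2⟩ := hdir φ hφG φ' hφ'G
    have e1 := hr1.2 k (by omega)
    have e2 := hr2.2 k (by omega)
    omega

end Pool.Agent.Helper403.Split
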