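import Pool.Agent.Helper403_Split.Dens

/-!
# The fusion order of `ℚ_U`
-/

set_option autoImplicit false

open Set Filter Topology
open scoped Cardinal

namespace Pool.Agent.Helper403.Split

variable {U : Ultrafilter ℕ}

/-- Decide the classes `2 ≤ j < N`: the ones in `S` get value `1`, the others value `0`. -/
def decP (N : ℕ) (S : Finset ℕ) (φ : QU U) : QU U :=
  ⟨fun k => if φ.1 k < 2 then φ.1 k else if φ.1 k < N then (if φ.1 k ∈ S then 1 else 0) else φ.1 k,
    fun n => by
      refine subset_notMem (union_notMem (finite_preimage_notMem φ (finite_Iio N)) (φ.2 n)) ?_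
      intro k hk
      by_cases h : φ.1 k < N
      · exact Or.inl h
      · right
        have h' : (if φ.1 k < 2 then φ.1 k else if φ.1 k < N then (if φ.1 k ∈ S then 1 else 0)
          else φ.1 k) = n := hk
        rw [if_neg h, ite_self] at h'
        exact h'⟩

/-- Pull back an extension `d` of `decP N S φ` to a fusion extension of `φ`. -/
def pullP (N : ℕ) (φ d : QU U) : QU U :=
  ⟨fun k => if φ.1 k < N then φ.1 k else if d.1 k < 2 then d.1 k else d.1 k + N,
    fun n => by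
      refine subset_notMem (union_notMem (union_notMem (φ.2 n) (d.2 n)) (d.2 (n - N))) ?_
      intro k hk
      have h' : (if φ.1 k < N then φ.1 k else if d.1 k < 2 then d.1 k else d.1 k + N) = n := hk
      split_ifs at h' with h1 h2
      · exact Or.inl (Or.inl h')
      · exact Or.inl (Or.inr h')
      · right
        show d.1 k = n - N
        omega⟩

/-- First board of the fusion. -/
def chiA (N e : ℕ) (φ ψ : QU U) : QU U :=
  ⟨fun k => if φ.1 k < N then φ.1 k else if ψ.1 k < N ∨ ψ.1 k = ψ.1 e then N else ψ.1 k + 1,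
    fun n => by
      refine subset_notMem (union_notMem (union_notMem (finite_preimage_notMem φ (finite_Iio N))
        (finite_preimage_notMem ψ (finite_Iio N))) (union_notMem (ψ.2 (ψ.1 e)) (ψ.2 (n - 1)))) ?_
      intro k hk
      have h' : (if φ.1 k < N then φ.1 k else if ψ.1 k < N ∨ ψ.1 k = ψ.1 e then N else
        ψ.1 k + 1) = n := hk
      split_ifs at h' with h1 h2
      · exact Or.inl (Or.inl h1)
      · rcases h2 with h2 | h2
        · exact Or.inl (Or.inr h2)
        · exact Or.inr (Or.inl h2)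
      · right; right
        show ψ.1 k = n - 1
        omega⟩

/-- Second board of the fusion. -/
def chiB (N : ℕ) (φ ψ : QU U) : QU U :=
  ⟨fun k => if ψ.1 k < N then ψ.1 k else if φ.1 k < N + 1 then N else φ.1 k,
    fun n => by
      refine subset_notMem (union_notMem (union_notMem (finite_preimage_notMem ψ (finite_Iio N))
        (finite_preimage_notMem φ (finite_Iio (N + 1)))) (φ.2 n)) ?_
      intro k hk
      have h' : (if ψ.1 k < N then ψ.1 k else if φ.1 k < N + 1 then N else φ.1 k) = n := hk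
      split_ifs at h' with h1 h2
      · exact Or.inl (Or.inl h1)
      · exact Or.inl (Or.inr h2)
      · exact Or.inr h'⟩

theorem decP_apply (N : ℕ) (S : Finset ℕ) (φ : QU U) (k : ℕ) : (decP N S φ).1 k =
    if φ.1 k < 2 then φ.1 k else if φ.1 k < N then (if φ.1 k ∈ S then 1 else 0) else φ.1 k := rfl

theorem pullP_apply (N : ℕ) (φ d : QU U) (k : ℕ) : (pullP N φ d).1 k =
    if φ.1 k < N then φ.1 k else if d.1 k < 2 then d.1 k else d.1 k + N := rfl

theorem chiA_apply (N e : ℕ) (φ ψ : QU U) (k : ℕ) : (chiA N e φ ψ).1 k =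
    if φ.1 k < N then φ.1 k else if ψ.1 k < N ∨ ψ.1 k = ψ.1 e then N else ψ.1 k + 1 := rfl

theorem chiB_apply (N : ℕ) (φ ψ : QU U) (k : ℕ) : (chiB N φ ψ).1 k =
    if ψ.1 k < N then ψ.1 k else if φ.1 k < N + 1 then N else φ.1 k := rfl

theorem decP_dich (N : ℕ) (S : Finset ℕ) (φ : QU U) (k : ℕ) :
    ((decP N S φ).1 k < 2 ∧ (φ.1 k < N ∨ φ.1 k < 2)) ∨
      ((decP N S φ).1 k = φ.1 k ∧ N ≤ φ.1 k ∧ 2 ≤ φ.1 k) := by
  rw [decP_apply]
  split_ifs <;> omega

/-- The fusion order. -/
def LeN (N : ℕ) (ψ φ : QU U) : Prop :=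
  (∀ k l, φ.1 k = φ.1 l → ψ.1 k = ψ.1 l) ∧ (∀ k, φ.1 k < N → ψ.1 k = φ.1 k) ∧
    ∀ k, N ≤ φ.1 k → ψ.1 k < 2 ∨ N ≤ ψ.1 k

theorem LeN.refl (N : ℕ) (φ : QU U) : LeN N φ φ :=
  ⟨fun _ _ h => h, fun _ _ => rfl, fun _ h => Or.inr h⟩

theorem LeN.trans {N : ℕ} (hN : 2 ≤ N) {χ ψ φ : QU U} (h1 : LeN N χ ψ) (h2 : LeN N ψ φ) :
    LeN N χ φ := by
  refine ⟨fun k l h => h1.1 k l (h2.1 k l h), fun k hk => ?_, fun k hk => ?_⟩
  · have h3 := h2.2.1 k hk
    rw [h1.2.1 k (by omega), h3]
  · rcases h2.2.2 k hk with h | h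
    · left
      rw [h1.2.1 k (by omega)]
      exact h
    · exact h1.2.2 k h

theorem LeN.mono {M N : ℕ} (hMN : N ≤ M) {ψ φ : QU U} (h : LeN M ψ φ) : LeN N ψ φ := by
  refine ⟨h.1, fun k hk => h.2.1 k (by omega), fun k hk => ?_⟩
  by_cases h' : φ.1 k < M
  · right
    rw [h.2.1 k h']
    exact hk
  · rcases h.2.2 k (by omega) with h3 | h3
    · exact Or.inl h3
    · right; omega

theorem LeN.le {N : ℕ} (hN : 2 ≤ N) {ψ φ : QU U} (h : LeN N ψ φ) : ψ ≤ φ :=
  ⟨h.1, fun k hk => h.2.1 k (by omega)⟩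

theorem leN_pullP {N : ℕ} {S : Finset ℕ} {φ d : QU U} (hd : d ≤ decP N S φ) :
    LeN N (pullP N φ d) φ := by
  refine ⟨fun k l hkl => ?_, fun k hk => ?_, fun k hk => ?_⟩
  · have h1 : d.1 k = d.1 l := hd.1 k l (by rw [decP_apply, decP_apply, hkl])
    rw [pullP_apply, pullP_apply, hkl, h1]
  · rw [pullP_apply, if_pos hk]
  · rw [pullP_apply, if_neg (by omega)]
    split_ifs <;> omega

theorem decP_pullP {N : ℕ} {S : Finset ℕ} {φ d : QU U} (hN : 2 ≤ N) (hd : d ≤ decP N S φ)
    (k : ℕ) : (decP N S (pullP N φ d)).1 k = if d.1 k < 2 then d.1 k else d.1 k + N := by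
  have hd2 := hd.2 k
  rw [decP_apply] at hd2
  rw [decP_apply, pullP_apply]
  by_cases h1 : φ.1 k < 2
  · have h2 : φ.1 k < N := by omega
    simp only [h1, h2, if_true] at hd2 ⊢
    rw [hd2 trivial]
    simp [h1]
  · by_cases h2 : φ.1 k < N
    · simp only [h1, h2, if_true, if_false] at hd2 ⊢
      have h3 : (if φ.1 k ∈ S then 1 else 0 : ℕ) < 2 := by split_ifs <;> omega
      rw [hd2 h3]
      simp [h3]
    · simp only [h2, if_false]
      by_cases h3 : d.1 k < 2
      · simp [h3]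
      · have h4 : ¬ (d.1 k + N < 2) := by omega
        have h5 : ¬ (d.1 k + N < N) := by omega
        simp only [h3, h4, h5, if_false]

theorem decP_pullP_le {N : ℕ} {S : Finset ℕ} {φ d : QU U} (hN : 2 ≤ N) (hd : d ≤ decP N S φ) :
    decP N S (pullP N φ d) ≤ d := by
  refine ⟨fun k l hkl => ?_, fun k hk => ?_⟩
  · rw [decP_pullP hN hd, decP_pullP hN hd, hkl]
  · rw [decP_pullP hN hd, if_pos hk]

theorem decP_mono {N : ℕ} {S : Finset ℕ} {ψ φ : QU U} (hN : 2 ≤ N) (h : LeN N ψ φ) :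
    decP N S ψ ≤ decP N S φ := by
  have key : ∀ k, φ.1 k < N → (decP N S ψ).1 k = (decP N S φ).1 k := by
    intro k hk
    rw [decP_apply, decP_apply, h.2.1 k hk]
  refine ⟨fun k l hkl => ?_, fun k hk => ?_⟩
  · rcases decP_dich N S φ k with ⟨h1, h2⟩ | ⟨h1, h2, h3⟩
    · rcases decP_dich N S φ l with ⟨h4, h5⟩ | ⟨h4, h5, h6⟩
      · rw [key k (by omega), key l (by omega), hkl]
      · omega
    · rcases decP_dich N S φ l with ⟨h4, h5⟩ | ⟨h4, h5, h6⟩
      · omega
      · have h7 : ψ.1 k = ψ.1 l := h.1 k l (by omega)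
        rw [decP_apply, decP_apply, h7]
  · rcases decP_dich N S φ k with ⟨h1, h2⟩ | ⟨h1, h2, h3⟩
    · exact key k (by omega)
    · omega

/-- The decision of the classes below `N` forced by an arbitrary extension `r` of `q`: there is a
further extension that is below one of the finitely many conditions `decP N S q`. -/
theorem exists_dec (N : ℕ) {q r : QU U} (hr : r ≤ q) :
    ∃ S ∈ (Finset.range N).powerset, ∃ r' ≤ r, r' ≤ decP N S q := by
  classical
  set R : Set ℕ := {v | 2 ≤ v ∧ ∃ k, q.1 k < N ∧ r.1 k = v} with hR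
  have hRf : R.Finite := by
    have h1 : ∀ v ∈ R, ∃ j < N, ∃ k, q.1 k = j ∧ r.1 k = v := by
      rintro v ⟨-, k, hk1, hk2⟩
      exact ⟨q.1 k, hk1, k, rfl, hk2⟩
    choose! f hf1 hf2 using h1
    refine Set.Finite.of_finite_image (f := f) ((finite_Iio N).subset ?_) ?_
    · rintro _ ⟨v, hv, rfl⟩
      exact hf1 v hv
    · intro v hv w hw hvw
      obtain ⟨k, hk1, hk2⟩ := hf2 v hv
      obtain ⟨l, hl1, hl2⟩ := hf2 w hw
      rw [← hk2, ← hl2]
      exact hr.1 k l (by rw [hk1, hl1, hvw])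
  have hRU : {k | r.1 k ∈ R} ∉ U := finite_preimage_notMem r hRf
  set S : Finset ℕ := (Finset.range N).filter fun j => ∃ k, q.1 k = j ∧ r.1 k = 1 with hS
  refine ⟨S, Finset.mem_powerset.2 (Finset.filter_subset _ _), collapse r R 0 hRU,
    collapse_le r R 0 hRU fun t ht => ht.1, ?_⟩
  set r' := collapse r R 0 hRU with hr'
  -- below `N` (or `2`) the two conditions agree
  have key : ∀ k, (q.1 k < N ∨ q.1 k < 2) → r'.1 k = (decP N S q).1 k := by
    intro k hk
    rw [decP_apply]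
    by_cases h2 : q.1 k < 2
    · rw [if_pos h2]
      have h3 := hr.2 k h2
      have h4 : r.1 k ∉ R := fun h => by have := h.1; omega
      rw [hr', collapse_apply_notMem r R 0 hRU h4, h3]
    · have h3 : q.1 k < N := by omega
      rw [if_neg h2, if_pos h3]
      by_cases h4 : r.1 k = 1
      · have h5 : q.1 k ∈ S := by
          rw [hS, Finset.mem_filter]
          exact ⟨Finset.mem_range.2 h3, k, rfl, h4⟩
        rw [if_pos h5]
        have h6 : r.1 k ∉ R := fun h => by have := h.1; omega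
        rw [hr', collapse_apply_notMem r R 0 hRU h6, h4]
      · have h5 : q.1 k ∉ S := by
          rw [hS, Finset.mem_filter]
          rintro ⟨-, l, hl1, hl2⟩
          exact h4 ((hr.1 k l hl1.symm).trans hl2)
        rw [if_neg h5]
        by_cases h6 : 2 ≤ r.1 k
        · exact collapse_apply_mem r R 0 hRU ⟨h6, k, h3, rfl⟩
        · have h7 : r.1 k ∉ R := fun h => h6 h.1
          rw [hr', collapse_apply_notMem r R 0 hRU h7]
          omega
  have hr'r : r' ≤ r := collapse_le r R 0 hRU fun t ht => ht.1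
  refine ⟨fun k l hkl => ?_, fun k hk => ?_⟩
  · rcases decP_dich N S q k with ⟨h1, h2⟩ | ⟨h1, h2, h3⟩
    · rcases decP_dich N S q l with ⟨h4, h5⟩ | ⟨h4, h5, h6⟩
      · rw [key k h2, key l h5, hkl]
      · omega
    · rcases decP_dich N S q l with ⟨h4, h5⟩ | ⟨h4, h5, h6⟩
      · omega
      · exact hr'r.1 k l (hr.1 k l (by omega))
  · rcases decP_dich N S q k with ⟨h1, h2⟩ | ⟨h1, h2, h3⟩
    · exact key k h2
    · omega

end Pool.Agent.Helper403.Split
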