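import Pool.Agent.Helper403_Split.Fus

/-!
# `ℚ_U` is proper
-/

set_option autoImplicit false

open Set Filter Topology
open scoped Cardinal

namespace Pool.Agent.Helper403.Split

/-- Countably many binary operations can be coded by one finitary function. -/
theorem exists_code {A ι : Type} [Countable ι] [Nonempty ι] [Nonempty A] (op : ι → A → A → A) :
    ∃ F : List A → A, ∀ X : Set A, (∀ l : List A, (∀ a ∈ l, a ∈ X) → F l ∈ X) →
      ∀ i, ∀ a ∈ X, ∀ b ∈ X, op i a b ∈ X := by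
  classical
  obtain ⟨f, hf⟩ := exists_surjective_nat ι
  obtain ⟨a₀⟩ := ‹Nonempty A›
  refine ⟨fun l => match l with
    | a :: b :: t => op (f t.length) a b
    | _ => a₀, fun X hX i a ha b hb => ?_⟩
  obtain ⟨n, rfl⟩ := hf i
  have h1 := hX (a :: b :: List.replicate n a) (by
    intro c hc
    simp only [List.mem_cons, List.mem_replicate] at hc
    rcases hc with h | h | h
    · rw [h]; exact ha
    · rw [h]; exact hb
    · rw [h.2]; exact ha)
  simpa using h1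

variable {U : Ultrafilter ℕ}

/-- A chosen element of `D` below `decP N S φ`. -/
noncomputable def pick (N : ℕ) (S : Finset ℕ) (φ : QU U) (D : Set (QU U)) : QU U := by
  classical
  exact if h : ∃ d ∈ D, d ≤ decP N S φ then h.choose else φ

theorem pick_mem {N : ℕ} {S : Finset ℕ} {φ : QU U} {D : Set (QU U)} (hD : IsDenseSet D) :
    pick N S φ D ∈ D ∧ pick N S φ D ≤ decP N S φ := by
  classical
  have h : ∃ d ∈ D, d ≤ decP N S φ := hD _
  unfold pick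
  rw [dif_pos h]
  exact h.choose_spec

/-- The operations. -/
noncomputable def theOp (i : ℕ × ℕ × ℕ × Finset ℕ) :
    QU U ⊕ Set (QU U) → QU U ⊕ Set (QU U) → QU U ⊕ Set (QU U)
  | Sum.inl φ, Sum.inr D => Sum.inl (pick i.2.1 i.2.2.2 φ D)
  | Sum.inl φ, Sum.inl ψ => Sum.inl (if i.1 = 0 then pullP i.2.1 φ ψ else
      if i.1 = 1 then chiA i.2.1 i.2.2.1 φ ψ else chiB i.2.1 φ ψ)
  | a, _ => a

/-- Closure under the operations. -/
structure Cl (X : Set (QU U ⊕ Set (QU U))) : Prop where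
  pick : ∀ (N : ℕ) (S : Finset ℕ) (φ : QU U) (D : Set (QU U)), Sum.inl φ ∈ X → Sum.inr D ∈ X →
    Sum.inl (pick N S φ D) ∈ X
  pull : ∀ (N : ℕ) (φ ψ : QU U), Sum.inl φ ∈ X → Sum.inl ψ ∈ X → Sum.inl (pullP N φ ψ) ∈ X
  chiA : ∀ (N e : ℕ) (φ ψ : QU U), Sum.inl φ ∈ X → Sum.inl ψ ∈ X → Sum.inl (chiA N e φ ψ) ∈ X
  chiB : ∀ (N : ℕ) (φ ψ : QU U), Sum.inl φ ∈ X → Sum.inl ψ ∈ X → Sum.inl (chiB N φ ψ) ∈ X

theorem cl_of_op {X : Set (QU U ⊕ Set (QU U))}
    (h : ∀ i, ∀ a ∈ X, ∀ b ∈ X, theOp i a b ∈ X) : Cl X where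
  pick N S _ _ h1 h2 := h (0, N, 0, S) _ h1 _ h2
  pull N _ _ h1 h2 := h (0, N, 0, ∅) _ h1 _ h2
  chiA N e _ _ h1 h2 := h (1, N, e, ∅) _ h1 _ h2
  chiB N _ _ h1 h2 := h (2, N, 0, ∅) _ h1 _ h2

/-- `φ` is prepared for `D` at `N`. -/
def Gen (X : Set (QU U ⊕ Set (QU U))) (D : Set (QU U)) (N : ℕ) (φ : QU U) : Prop :=
  ∀ S ∈ (Finset.range N).powerset, ∃ d ∈ D, Sum.inl d ∈ X ∧ decP N S φ ≤ d

theorem exists_gen {X : Set (QU U ⊕ Set (QU U))} (hX : Cl X) {N : ℕ} (hN : 2 ≤ N)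
    {D : Set (QU U)} (hD : IsDenseSet D) (hDX : Sum.inr D ∈ X) (φ : QU U) (hφ : Sum.inl φ ∈ X) :
    ∃ φ' : QU U, Sum.inl φ' ∈ X ∧ LeN N φ' φ ∧ Gen X D N φ' := by
  classical
  have key : ∀ 𝒮 : Finset (Finset ℕ), ∃ φ' : QU U, Sum.inl φ' ∈ X ∧ LeN N φ' φ ∧
      ∀ S ∈ 𝒮, ∃ d ∈ D, Sum.inl d ∈ X ∧ decP N S φ' ≤ d := by
    intro 𝒮
    induction 𝒮 using Finset.induction_on with
    | empty => exact ⟨φ, hφ, LeN.refl N φ, by simp⟩
    | insert S 𝒮 hS ih =>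
      obtain ⟨φ', h1, h2, h3⟩ := ih
      obtain ⟨hd1, hd2⟩ := pick_mem (N := N) (S := S) (φ := φ') hD
      have hdX := hX.pick N S φ' D h1 hDX
      refine ⟨pullP N φ' (pick N S φ' D), hX.pull N _ _ h1 hdX, (leN_pullP hd2).trans hN h2, ?_⟩
      intro S' hS'
      rcases Finset.mem_insert.1 hS' with rfl | hS'
      · exact ⟨_, hd1, hdX, decP_pullP_le hN hd2⟩
      · obtain ⟨d, hd, hdX', hle⟩ := h3 S' hS'
        exact ⟨d, hd, hdX', (decP_mono hN (leN_pullP hd2)).trans hle⟩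
  exact key _

/-- The invariant of the fusion. -/
structure Inv (N : ℕ) (φ ψ : QU U) : Prop where
  h1 : ∀ k l, N ≤ φ.1 k → φ.1 k = φ.1 l → ψ.1 k = ψ.1 l
  h2 : ∀ k, N ≤ φ.1 k → ψ.1 k < 2 ∨ N ≤ ψ.1 k
  h3 : ∀ k, N ≤ ψ.1 k → N ≤ φ.1 k

theorem leN_chiA {N e : ℕ} {φ ψ : QU U} (h : Inv N φ ψ) :
    LeN N (chiA N e φ ψ) φ := by
  refine ⟨fun k l hkl => ?_, fun k hk => ?_, fun k hk => ?_⟩
  · rw [chiA_apply, chiA_apply]
    by_cases h1 : φ.1 k < N
    · have h2 : φ.1 l < N := by omega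
      rw [if_pos h1, if_pos h2, hkl]
    · have h2 : ¬ φ.1 l < N := by omega
      rw [if_neg h1, if_neg h2, h.h1 k l (by omega) hkl]
  · rw [chiA_apply, if_pos hk]
  · rw [chiA_apply, if_neg (by omega)]
    split_ifs with h1
    · right; omega
    · right
      push Not at h1
      omega

theorem chiA_e {N e : ℕ} (φ ψ : QU U) : (chiA N e φ ψ).1 e < N + 1 := by
  rw [chiA_apply]
  split_ifs with h1 h2
  · omega
  · omega
  · push Not at h2
    exact absurd rfl h2.2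

/-- The facts about the second board. -/
theorem leN_chiB {N e : ℕ} {φ ψ φ' : QU U} (h : Inv N φ ψ)
    (hφ' : LeN (N + 1) φ' (chiA N e φ ψ)) : LeN N (chiB N φ' ψ) ψ := by
  refine ⟨fun k l hkl => ?_, fun k hk => ?_, fun k hk => ?_⟩
  · rw [chiB_apply, chiB_apply]
    by_cases h1 : ψ.1 k < N
    · have h2 : ψ.1 l < N := by omega
      rw [if_pos h1, if_pos h2, hkl]
    · have h2 : ¬ ψ.1 l < N := by omega
      have h3 : φ'.1 k = φ'.1 l := by
        apply hφ'.1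
        have hk := h.h3 k (by omega)
        have hl := h.h3 l (by omega)
        rw [chiA_apply, chiA_apply, if_neg (show ¬ φ.1 k < N by omega),
          if_neg (show ¬ φ.1 l < N by omega), hkl]
      rw [if_neg h1, if_neg h2, h3]
  · rw [chiB_apply, if_pos hk]
  · rw [chiB_apply, if_neg (by omega)]
    split_ifs <;> omega

theorem chiB_e {N e : ℕ} {φ ψ φ' : QU U}
    (hφ' : LeN (N + 1) φ' (chiA N e φ ψ)) : (chiB N φ' ψ).1 e < N + 1 := by
  have h1 : φ'.1 e < N + 1 := by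
    rw [hφ'.2.1 e (chiA_e φ ψ)]
    exact chiA_e φ ψ
  rw [chiB_apply]
  split_ifs <;> omega

theorem inv_next {N e : ℕ} {φ ψ φ' ψ' : QU U}
    (hφ' : LeN (N + 1) φ' (chiA N e φ ψ)) (hψ' : LeN (N + 1) ψ' (chiB N φ' ψ)) :
    Inv (N + 1) φ' ψ' := by
  -- on `{φ' ≥ N + 1}`, `chiB = φ'`
  have key : ∀ k, N + 1 ≤ φ'.1 k → (chiB N φ' ψ).1 k = φ'.1 k := by
    intro k hk
    have h1 : ¬ (chiA N e φ ψ).1 k < N + 1 := fun h1 => by
      have := hφ'.2.1 k h1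
      omega
    rw [chiA_apply] at h1
    rw [chiB_apply]
    split_ifs at h1 with h2 h3
    · omega
    · omega
    · push Not at h3
      rw [if_neg (by omega), if_neg (by omega)]
  refine ⟨fun k l hk hkl => ?_, fun k hk => ?_, fun k hk => ?_⟩
  · exact hψ'.1 k l (by rw [key k hk, key l (by omega), hkl])
  · exact hψ'.2.2 k (by rw [key k hk]; exact hk)
  · by_contra hcon
    have h1 : ¬ (chiB N φ' ψ).1 k < N + 1 := fun h1 => by
      have := hψ'.2.1 k h1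
      omega
    rw [chiB_apply] at h1
    split_ifs at h1 with h2 h3
    · omega
    · omega
    · omega

theorem both_next {N e : ℕ} {φ ψ φ' ψ' : QU U} (hN : 2 ≤ N) (h : Inv N φ ψ)
    (hφ' : LeN (N + 1) φ' (chiA N e φ ψ)) (hψ' : LeN (N + 1) ψ' (chiB N φ' ψ)) (k : ℕ)
    (h1 : φ'.1 k < 2) (h2 : ψ'.1 k < 2) : φ.1 k < 2 ∧ ψ.1 k < 2 := by
  have eA := chiA_apply N e φ ψ k
  have eB := chiB_apply N φ' ψ k
  by_cases c1 : φ.1 k < N
  · rw [if_pos c1] at eA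
    have e1 := hφ'.2.1 k (by omega)
    have c2 : ψ.1 k < N := by
      by_contra c2
      have := h.h3 k (by omega)
      omega
    rw [if_pos c2] at eB
    have e2 := hψ'.2.1 k (by omega)
    omega
  · exfalso
    rw [if_neg c1] at eA
    by_cases c2 : ψ.1 k < N ∨ ψ.1 k = ψ.1 e
    · rw [if_pos c2] at eA
      have e1 := hφ'.2.1 k (by omega)
      omega
    · push Not at c2
      rw [if_neg (by omega), if_pos (by omega)] at eB
      have e2 := hψ'.2.1 k (by omega)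
      omega

/-- One round of the fusion. -/
theorem round {X : Set (QU U ⊕ Set (QU U))} (hX : Cl X) {N : ℕ} (hN : 2 ≤ N) (e : ℕ)
    {D : Set (QU U)} (hD : IsDenseSet D) (hDX : Sum.inr D ∈ X) (φ ψ : QU U)
    (hφ : Sum.inl φ ∈ X) (hψ : Sum.inl ψ ∈ X) (h : Inv N φ ψ) :
    ∃ φ' ψ' : QU U, Sum.inl φ' ∈ X ∧ Sum.inl ψ' ∈ X ∧ Inv (N + 1) φ' ψ' ∧ LeN N φ' φ ∧
      LeN N ψ' ψ ∧ φ'.1 e < N + 1 ∧ ψ'.1 e < N + 1 ∧
      (∀ k, φ'.1 k < 2 → ψ'.1 k < 2 → φ.1 k < 2 ∧ ψ.1 k < 2) ∧ Gen X D (N + 1) φ' ∧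
      Gen X D (N + 1) ψ' := by
  obtain ⟨φ', hφ'X, hφ', hφ'g⟩ := exists_gen hX (N := N + 1) (by omega) hD hDX
    (chiA N e φ ψ) (hX.chiA N e φ ψ hφ hψ)
  obtain ⟨ψ', hψ'X, hψ', hψ'g⟩ := exists_gen hX (N := N + 1) (by omega) hD hDX
    (chiB N φ' ψ) (hX.chiB N φ' ψ hφ'X hψ)
  have hA := leN_chiA (e := e) h
  have hB := leN_chiB h hφ'
  refine ⟨φ', ψ', hφ'X, hψ'X, inv_next hφ' hψ', (hφ'.mono (by omega)).trans hN hA,
    (hψ'.mono (by omega)).trans hN hB, ?_, ?_, fun k => both_next hN h hφ' hψ' k, hφ'g, hψ'g⟩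
  · have := chiA_e (N := N) (e := e) φ ψ
    rw [hφ'.2.1 e this]
    exact this
  · have := chiB_e hφ'
    rw [hψ'.2.1 e this]
    exact this

/-! ### Limits of fusion sequences -/

section limit

variable (a : ℕ → QU U) (h1 : ∀ m, LeN (m + 2) (a (m + 1)) (a m))
  (h2 : ∀ m, (a (m + 1)).1 m < m + 3)

include h1 in
theorem leN_seq (m M : ℕ) (hmM : m ≤ M) : LeN (m + 2) (a M) (a m) := by
  induction M, hmM using Nat.le_induction with
  | base => exact LeN.refl _ _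
  | succ M hM ih => exact ((h1 M).mono (by omega)).trans (by omega) ih

include h1 h2 in
theorem stab (k M : ℕ) (hM : k + 1 ≤ M) : (a M).1 k = (a (k + 1)).1 k := by
  refine (leN_seq a h1 (k + 1) M hM).2.1 k ?_
  have := h2 k
  omega

include h1 h2 in
/-- The pointwise limit is below all members of the sequence in the fusion order. -/
theorem limit_leN (m : ℕ) :
    (∀ k l, (a m).1 k = (a m).1 l → (a (k + 1)).1 k = (a (l + 1)).1 l) ∧
    (∀ k, (a m).1 k < m + 2 → (a (k + 1)).1 k = (a m).1 k) ∧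
    (∀ k, m + 2 ≤ (a m).1 k → (a (k + 1)).1 k < 2 ∨ m + 2 ≤ (a (k + 1)).1 k) := by
  refine ⟨fun k l hkl => ?_, fun k hk => ?_, fun k hk => ?_⟩
  · have e1 := stab a h1 h2 k (m + k + l + 1) (by omega)
    have e2 := stab a h1 h2 l (m + k + l + 1) (by omega)
    rw [← e1, ← e2]
    exact (leN_seq a h1 m (m + k + l + 1) (by omega)).1 k l hkl
  · have e1 := stab a h1 h2 k (m + k + 1) (by omega)
    rw [← e1]
    exact (leN_seq a h1 m (m + k + 1) (by omega)).2.1 k hk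
  · have e1 := stab a h1 h2 k (m + k + 1) (by omega)
    rw [← e1]
    exact (leN_seq a h1 m (m + k + 1) (by omega)).2.2 k hk

include h1 h2 in
theorem limit_fiber (n : ℕ) (hn : 2 ≤ n) : {k | (a (k + 1)).1 k = n} ∉ U := by
  refine subset_notMem ((a n).2 n) ?_
  intro k hk
  have hk' : (a (k + 1)).1 k = n := hk
  obtain ⟨-, h3, h4⟩ := limit_leN a h1 h2 n
  show (a n).1 k = n
  by_cases h5 : (a n).1 k < n + 2
  · rw [← h3 k h5]
    exact hk
  · have := h4 k (by omega)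
    omega

/-- The limit condition. -/
def lim (h : {k | (a (k + 1)).1 k < 2} ∉ U) : QU U :=
  ⟨fun k => (a (k + 1)).1 k, fun n => by
    by_cases hn : n < 2
    · refine subset_notMem h ?_
      intro k hk
      have hk' : (a (k + 1)).1 k = n := hk
      show (a (k + 1)).1 k < 2
      omega
    · exact limit_fiber a h1 h2 n (by omega)⟩

theorem lim_leN (h : {k | (a (k + 1)).1 k < 2} ∉ U) (m : ℕ) :
    LeN (m + 2) (lim a h1 h2 h) (a m) := limit_leN a h1 h2 m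

/-- The limit is generic if the sequence is prepared. -/
theorem lim_generic (h : {k | (a (k + 1)).1 k < 2} ∉ U) {X : Set (QU U ⊕ Set (QU U))}
    {D : Set (QU U)} {m : ℕ} (hg : Gen X D (m + 2 + 1) (a (m + 1))) (r : QU U)
    (hr : r ≤ lim a h1 h2 h) : ∃ d ∈ D, Sum.inl d ∈ X ∧ Compat r d := by
  obtain ⟨S, hS, r', hr'r, hr'⟩ := exists_dec (m + 2 + 1) hr
  obtain ⟨d, hd, hdX, hle⟩ := hg S hS
  refine ⟨d, hd, hdX, r', hr'r, hr'.trans (le_trans ?_ hle)⟩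
  exact decP_mono (by omega) (lim_leN a h1 h2 h (m + 1))

end limit

/-- **`ℚ_U` is proper.** -/
theorem proper_QU (U : Ultrafilter ℕ) : IsProperForcing (QU U) := by
  classical
  obtain ⟨F, hF⟩ := exists_code (theOp (U := U))
  refine ⟨F, fun X hXc hXF p hp => ?_⟩
  have hX : Cl X := cl_of_op (hF X hXF)
  by_cases hne : ∃ D : Set (QU U), IsDenseSet D ∧ Sum.inr D ∈ X
  swap
  · exact ⟨p, le_rfl, fun D hD hDX => absurd ⟨D, hD, hDX⟩ hne⟩
  -- enumerate the dense sets in `X`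
  obtain ⟨D, hDall⟩ : ∃ D : ℕ → Set (QU U), {E | IsDenseSet E ∧ Sum.inr E ∈ X} = range D := by
    refine Set.Countable.exists_eq_range ?_ hne
    refine (hXc.preimage (f := Sum.inr) Sum.inr_injective).mono ?_
    intro E hE
    exact hE.2
  have hD : ∀ m, IsDenseSet (D m) ∧ Sum.inr (D m) ∈ X := by
    intro m
    have : D m ∈ {E | IsDenseSet E ∧ Sum.inr E ∈ X} := hDall ▸ mem_range_self m
    exact this
  -- the two sequences
  have step : ∀ (m : ℕ) (s : QU U × QU U), (Sum.inl s.1 ∈ X ∧ Sum.inl s.2 ∈ X ∧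
      Inv (m + 2) s.1 s.2) → ∃ s' : QU U × QU U, (Sum.inl s'.1 ∈ X ∧ Sum.inl s'.2 ∈ X ∧
      Inv (m + 2 + 1) s'.1 s'.2) ∧ LeN (m + 2) s'.1 s.1 ∧ LeN (m + 2) s'.2 s.2 ∧
      s'.1.1 m < m + 2 + 1 ∧ s'.2.1 m < m + 2 + 1 ∧
      (∀ k, s'.1.1 k < 2 → s'.2.1 k < 2 → s.1.1 k < 2 ∧ s.2.1 k < 2) ∧
      Gen X (D m) (m + 2 + 1) s'.1 ∧ Gen X (D m) (m + 2 + 1) s'.2 := by
    rintro m ⟨φ, ψ⟩ ⟨hφ, hψ, hI⟩
    obtain ⟨φ', ψ', a1, a2, a3, a4, a5, a6, a7, a8, a9, a10⟩ :=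
      round hX (N := m + 2) (by omega) m (hD m).1 (hD m).2 φ ψ hφ hψ hI
    exact ⟨(φ', ψ'), ⟨a1, a2, a3⟩, a4, a5, a6, a7, a8, a9, a10⟩
  choose! nxt hnxt1 hnxt2 using step
  set s : ℕ → QU U × QU U := fun m => Nat.rec (p, p) (fun m s => nxt m s) m with hs
  have hs1 : ∀ m, s (m + 1) = nxt m (s m) := fun m => rfl
  have hI0 : Inv 2 p p := ⟨fun k l _ h => h, fun k h => Or.inr h, fun k h => h⟩
  have hsI : ∀ m, Sum.inl (s m).1 ∈ X ∧ Sum.inl (s m).2 ∈ X ∧ Inv (m + 2) (s m).1 (s m).2 := by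
    intro m
    induction m with
    | zero => exact ⟨hp, hp, hI0⟩
    | succ m ih =>
      rw [hs1]
      exact hnxt1 m (s m) ih
  have hsN := fun m => hnxt2 m (s m) (hsI m)
  have a1 : ∀ m, LeN (m + 2) ((fun m => (s m).1) (m + 1)) ((fun m => (s m).1) m) :=
    fun m => (hsN m).1
  have b1 : ∀ m, LeN (m + 2) ((fun m => (s m).2) (m + 1)) ((fun m => (s m).2) m) :=
    fun m => (hsN m).2.1
  have a2 : ∀ m, ((fun m => (s m).1) (m + 1)).1 m < m + 3 := fun m => (hsN m).2.2.1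
  have b2 : ∀ m, ((fun m => (s m).2) (m + 1)).1 m < m + 3 := fun m => (hsN m).2.2.2.1
  have hboth : ∀ m k, (s m).1.1 k < 2 → (s m).2.1 k < 2 → p.1 k < 2 := by
    intro m
    induction m with
    | zero => exact fun k h _ => h
    | succ m ih =>
      intro k h h'
      obtain ⟨h3, h4⟩ := (hsN m).2.2.2.2.1 k h h'
      exact ih k h3 h4
  have hp2 : {k | p.1 k < 2} ∉ U := finite_preimage_notMem p (finite_Iio 2)
  have hor : {k | ((fun m => (s m).1) (k + 1)).1 k < 2} ∉ U ∨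
      {k | ((fun m => (s m).2) (k + 1)).1 k < 2} ∉ U := by
    by_contra hcon
    push Not at hcon
    refine hp2 (Filter.mem_of_superset (Filter.inter_mem hcon.1 hcon.2) ?_)
    rintro k ⟨hk1, hk2⟩
    exact hboth (k + 1) k hk1 hk2
  rcases hor with h | h
  · refine ⟨lim _ a1 a2 h, (lim_leN _ a1 a2 h 0).le (by omega), ?_⟩
    intro E hE hEX r hr
    obtain ⟨m, rfl⟩ : E ∈ range D := hDall ▸ ⟨hE, hEX⟩
    exact lim_generic _ a1 a2 h (m := m) (hsN m).2.2.2.2.2.1 r hr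
  · refine ⟨lim _ b1 b2 h, (lim_leN _ b1 b2 h 0).le (by omega), ?_⟩
    intro E hE hEX r hr
    obtain ⟨m, rfl⟩ : E ∈ range D := hDall ▸ ⟨hE, hEX⟩
    exact lim_generic _ b1 b2 h (m := m) (hsN m).2.2.2.2.2.2 r hr

end Pool.Agent.Helper403.Split
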